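import Pool.Agent.helper82.LEQ.Spec

/-!
Row lq:PD (MP_e82547_al): a `p`-group acting on a group of order divisible by `p`.
-/

set_option autoImplicit false

namespace LEQ

open scoped BigOperators
open QS (Lef EAb)

theorem PD : PD_stmt := by
  intro G _ _ p hp A E hE hN hdvd
  have hpf : Fact p.Prime := ⟨hp⟩
  have hEp : IsPGroup p E := fun e => ⟨1, by
    rw [pow_one]
    exact Subtype.ext (by simpa using hE.2 e.1 e.2)⟩
  let act : MulDistribMulAction E A :=
    { smul := fun e a => ⟨e.1 * a.1 * e.1⁻¹, (hN e.1 e.2 a.1).1 a.2⟩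
      one_smul := fun a => Subtype.ext (by
        show (1 : G) * a.1 * (1 : G)⁻¹ = a.1
        group)
      mul_smul := fun e f a => Subtype.ext (by
        show (e.1 * f.1) * a.1 * (e.1 * f.1)⁻¹ = e.1 * (f.1 * a.1 * f.1⁻¹) * e.1⁻¹
        group)
      smul_mul := fun e a b => Subtype.ext (by
        show e.1 * (a.1 * b.1) * e.1⁻¹ = (e.1 * a.1 * e.1⁻¹) * (e.1 * b.1 * e.1⁻¹)
        group)
      smul_one := fun e => Subtype.ext (by
        show e.1 * (1 : G) * e.1⁻¹ = 1
        group) }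
  have hfin : Finite (Sylow p A) := inferInstance
  obtain ⟨S, hS⟩ := hEp.nonempty_fixed_point_of_prime_not_dvd_card (Sylow p A)
    (not_dvd_card_sylow p A)
  have hSm : ∀ (e : E) (s : A), s ∈ S → e • s ∈ S := by
    intro e s hs
    have h1 : e • S = S := hS e
    have h2 : e • s ∈ ((e • S : Sylow p A) : Subgroup A) := by
      rw [Sylow.pointwise_smul_def]
      exact Subgroup.smul_mem_pointwise_smul s e (S : Subgroup A) hs
    rw [h1] at h2
    exact h2
  let act2 : MulAction E S :=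
    { smul := fun e s => ⟨e • s.1, hSm e s.1 s.2⟩
      one_smul := fun s => Subtype.ext (one_smul E s.1)
      mul_smul := fun e f s => Subtype.ext (mul_smul e f s.1) }
  have hSd : p ∣ Nat.card S := S.dvd_card_of_dvd_card hdvd
  have h1f : (1 : S) ∈ MulAction.fixedPoints E S := fun e => Subtype.ext (smul_one e)
  obtain ⟨b, hb, hb1⟩ := hEp.exists_fixed_point_of_prime_dvd_card_of_fixed_point S hSd h1f
  obtain ⟨k, hk⟩ := S.isPGroup' b
  have hbA : (b.1.1 : G) ∈ A ⊓ Cn E := by
    refine Subgroup.mem_inf.2 ⟨b.1.2, ?_⟩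
    unfold Cn
    rw [Subgroup.mem_centralizer_iff]
    intro e he
    have h := hb ⟨e, he⟩
    have h2 : e * b.1.1 * e⁻¹ = b.1.1 := congrArg (fun s : S => (s.1.1 : G)) h
    exact mul_inv_eq_iff_eq_mul.1 h2
  have hord : p ∣ orderOf b := by
    have h1 : orderOf b ∣ p ^ k := orderOf_dvd_of_pow_eq_one hk
    obtain ⟨j, -, hj⟩ := (Nat.dvd_prime_pow hp).1 h1
    rcases Nat.eq_zero_or_pos j with h | h
    · subst h
      rw [pow_zero, orderOf_eq_one_iff] at hj
      exact absurd hj.symm hb1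
    · rw [hj]
      exact dvd_pow_self p h.ne'
  have hord2 : orderOf (⟨b.1.1, hbA⟩ : (A ⊓ Cn E : Subgroup G)) = orderOf b := by
    rw [← Subgroup.orderOf_coe, ← Subgroup.orderOf_coe b, ← Subgroup.orderOf_coe b.1]
  rw [← hord2] at hord
  exact hord.trans (orderOf_dvd_natCard _)

end LEQ
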